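import Mathlib

set_option autoImplicit false

/-!
# Generalized Hadamard matrices `GH(s, λ)`: basic definitions and transport

`IsDM lam D` : the (additive) difference matrix condition for `D : R → C → A`, with arbitrary
finite index types for rows and columns.
-/

namespace Pool.Agent.GH8

open Finset

/-- `D` is a difference matrix of index `lam` over the additive group `A`: the differences of any
two distinct rows contain every element of `A` exactly `lam` times. -/
def IsDM {R C A : Type} [Fintype C] [AddCommGroup A] [DecidableEq A] (lam : ℕ)
    (D : R → C → A) : Prop :=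
  ∀ i j : R, i ≠ j → ∀ g : A, (univ.filter (fun k : C => D i k - D j k = g)).card = lam

/-- There is a `GH(s, lam)` over some group of order `s` (in the exact form of the frozen
statement). -/
def HasGH (s lam : ℕ) : Prop :=
  ∃ (G : Type) (_ : Group G) (_ : Fintype G) (_ : DecidableEq G),
    Fintype.card G = s ∧
    ∃ D : Fin (s * lam) → Fin (s * lam) → G,
      ∀ i j : Fin (s * lam), i ≠ j → ∀ g : G,
        (Finset.univ.filter (fun k : Fin (s * lam) => D i k * (D j k)⁻¹ = g)).card = lam

/-- Transport of a square difference matrix with arbitrary index types to the form `HasGH`. -/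
theorem hasGH_of_isDM {R C A : Type} [Fintype R] [Fintype C] [AddCommGroup A] [Fintype A]
    [DecidableEq A] {s lam : ℕ} (hA : Fintype.card A = s) (hR : Fintype.card R = s * lam)
    (hC : Fintype.card C = s * lam) (D : R → C → A) (hD : IsDM lam D) : HasGH s lam := by
  classical
  refine ⟨Multiplicative A, inferInstance, inferInstance, inferInstance, ?_, ?_⟩
  · simpa using hA
  · let eR : Fin (s * lam) ≃ R := (Fintype.equivFinOfCardEq hR).symm
    let eC : Fin (s * lam) ≃ C := (Fintype.equivFinOfCardEq hC).symm
    refine ⟨fun i k => Multiplicative.ofAdd (D (eR i) (eC k)), ?_⟩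
    intro i j hij g
    have h := hD (eR i) (eR j) (fun h => hij (eR.injective h)) (Multiplicative.toAdd g)
    refine Eq.trans ?_ h
    refine Finset.card_bij (fun k _ => eC k) ?_ ?_ ?_
    · intro k hk
      simp only [mem_filter, mem_univ, true_and] at hk ⊢
      rw [← hk]
      simp [sub_eq_add_neg]
    · intro a _ b _ hab
      exact eC.injective hab
    · intro b hb
      refine ⟨eC.symm b, ?_, by simp⟩
      simp only [mem_filter, mem_univ, true_and] at hb ⊢
      rw [Equiv.apply_symm_apply]
      have : Multiplicative.ofAdd (D (eR i) b - D (eR j) b) = g := by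
        rw [hb]; rfl
      rw [← this, ← ofAdd_neg, ← ofAdd_add, sub_eq_add_neg]

end Pool.Agent.GH8
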