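import Pool.Agent.Lib_helper14.GH8.Quad

set_option autoImplicit false

/-!
# `GH(11, 8)`
-/

namespace Pool.Agent.GH8

open Finset

section Matching

variable {F : Type} [Field F] [Fintype F] [DecidableEq F]

/-- Difference matrices of quadratic forms in which the columns cancel in pairs. -/
theorem isDM_matching {I J : Type} [Fintype J] (hF : ringChar F ≠ 2)
    (a b c : I → J → F) (hb : ∀ i j, b i j ≠ 0) (s : I → I → J → J)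
    (hs : ∀ i i' j, s i i' (s i i' j) = j)
    (hm : ∀ i i' j, i ≠ i' →
      quadraticChar F ((c i j - c i' j) * (c i (s i i' j) - c i' (s i i' j))) = -1 ∧
      (b i (s i i' j) ^ 2 - 4 * (c i (s i i' j) - c i' (s i i' j)) * a i (s i i' j)) *
        (c i j - c i' j) =
      (b i j ^ 2 - 4 * (c i j - c i' j) * a i j) * (c i (s i i' j) - c i' (s i i' j)) ∧
      (b i (s i i' j) * b i' (s i i' j)) * (c i j - c i' j) =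
      (b i j * b i' j) * (c i (s i i' j) - c i' (s i i' j)) ∧
      (b i' (s i i' j) ^ 2 + 4 * (c i (s i i' j) - c i' (s i i' j)) * a i' (s i i' j)) *
        (c i j - c i' j) =
      (b i' j ^ 2 + 4 * (c i j - c i' j) * a i' j) * (c i (s i i' j) - c i' (s i i' j))) :
    IsDM (Fintype.card J) (quadMat a b c) := by
  have hc0 : ∀ i i' j, i ≠ i' → c i j - c i' j ≠ 0 := by
    intro i i' j hne h
    have := (hm i i' j hne).1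
    rw [h, zero_mul] at this
    simp at this
  refine isDM_quadMat hF a b c hb (fun i i' j hne => sub_ne_zero.mp (hc0 i i' j hne)) ?_
  intro i i' hne x x' v
  let e : J ≃ J := ⟨s i i', s i i', hs i i', hs i i'⟩
  have hneg : ∀ j, quadraticChar F ((b i (e j) * x - b i' (e j) * x') ^ 2 -
        4 * (c i (e j) - c i' (e j)) * (a i (e j) * x ^ 2 - a i' (e j) * x' ^ 2 - v)) =
      -quadraticChar F ((b i j * x - b i' j * x') ^ 2 -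
        4 * (c i j - c i' j) * (a i j * x ^ 2 - a i' j * x' ^ 2 - v)) := by
    intro j
    obtain ⟨h1, h2, h3, h4⟩ := hm i i' j hne
    have hC := hc0 i i' j hne
    have key : ((b i (e j) * x - b i' (e j) * x') ^ 2 -
        4 * (c i (e j) - c i' (e j)) * (a i (e j) * x ^ 2 - a i' (e j) * x' ^ 2 - v)) =
        ((c i j - c i' j) * (c i (e j) - c i' (e j))) * ((c i j - c i' j)⁻¹) ^ 2 *
        ((b i j * x - b i' j * x') ^ 2 -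
        4 * (c i j - c i' j) * (a i j * x ^ 2 - a i' j * x' ^ 2 - v)) := by
      change ((b i (s i i' j) * x - b i' (s i i' j) * x') ^ 2 -
        4 * (c i (s i i' j) - c i' (s i i' j)) *
          (a i (s i i' j) * x ^ 2 - a i' (s i i' j) * x' ^ 2 - v)) =
        ((c i j - c i' j) * (c i (s i i' j) - c i' (s i i' j))) * ((c i j - c i' j)⁻¹) ^ 2 *
        ((b i j * x - b i' j * x') ^ 2 -
        4 * (c i j - c i' j) * (a i j * x ^ 2 - a i' j * x' ^ 2 - v))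
      have h5 : ∀ X Y : F, X * (c i j - c i' j) = Y * (c i j - c i' j) → X = Y :=
        fun X Y h => mul_right_cancel₀ hC h
      apply h5
      have h6 : ((c i j - c i' j)⁻¹) ^ 2 * (c i j - c i' j) ^ 2 = 1 := by
        rw [← mul_pow, inv_mul_cancel₀ hC, one_pow]
      linear_combination x ^ 2 * h2 - 2 * x * x' * h3 + x' ^ 2 * h4 -
        ((c i (s i i' j) - c i' (s i i' j)) * ((b i j * x - b i' j * x') ^ 2 -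
        4 * (c i j - c i' j) * (a i j * x ^ 2 - a i' j * x' ^ 2 - v))) * h6
    rw [key, map_mul, map_mul, quadraticChar_sq_one' (inv_ne_zero hC), mul_one]
    have h1' : quadraticChar F ((c i j - c i' j) * (c i (e j) - c i' (e j))) = -1 := h1
    rw [h1']
    ring
  have hsum := Equiv.sum_comp e (fun j => quadraticChar F ((b i j * x - b i' j * x') ^ 2 -
        4 * (c i j - c i' j) * (a i j * x ^ 2 - a i' j * x' ^ 2 - v)))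
  simp only [hneg] at hsum
  rw [Finset.sum_neg_distrib] at hsum
  linarith

end Matching

def a11 : Fin 8 → Fin 8 → ZMod 11 :=
  ![![5, 3, 9, 4, 8, 7, 10, 2], ![4, 9, 3, 5, 2, 10, 7, 8], ![7, 8, 10, 6, 3, 5, 9, 1], ![10, 2, 6, 8, 9, 4, 1, 5], ![8, 7, 5, 3, 10, 2, 9, 4], ![2, 10, 4, 9, 7, 8, 3, 5], ![3, 5, 7, 8, 9, 1, 10, 6], ![9, 4, 10, 2, 1, 5, 6, 8]]
def b11 : Fin 8 → Fin 8 → ZMod 11 :=
  ![![3, 1, 9, 7, 7, 6, 10, 9], ![9, 1, 2, 5, 10, 6, 1, 8], ![4, 1, 3, 8, 4, 1, 3, 8], ![1, 1, 6, 9, 1, 1, 6, 9], ![7, 1, 3, 4, 10, 5, 9, 9], ![10, 1, 9, 4, 1, 2, 2, 8], ![4, 2, 4, 4, 3, 2, 3, 4], ![1, 2, 1, 4, 6, 5, 6, 10]]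
def c11 : Fin 8 → Fin 8 → ZMod 11 :=
  ![![8, 4, 2, 4, 4, 2, 1, 2], ![2, 5, 9, 6, 1, 8, 10, 3], ![7, 3, 8, 3, 9, 7, 4, 7], ![10, 1, 5, 2, 5, 6, 8, 1], ![4, 8, 1, 5, 10, 3, 0, 0], ![1, 10, 6, 10, 8, 1, 7, 6], ![9, 6, 0, 0, 2, 4, 6, 8], ![5, 2, 3, 1, 6, 5, 3, 5]]
def s11 : Fin 8 → Fin 8 → Fin 8 → Fin 8 :=
  ![![![0, 1, 2, 3, 4, 5, 6, 7], ![2, 3, 0, 1, 6, 7, 4, 5], ![4, 5, 6, 7, 0, 1, 2, 3], ![2, 3, 0, 1, 6, 7, 4, 5], ![1, 0, 3, 2, 5, 4, 7, 6], ![1, 0, 3, 2, 5, 4, 7, 6], ![1, 0, 3, 2, 5, 4, 7, 6], ![1, 0, 3, 2, 5, 4, 7, 6]],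
    ![![2, 3, 0, 1, 6, 7, 4, 5], ![0, 1, 2, 3, 4, 5, 6, 7], ![2, 3, 0, 1, 6, 7, 4, 5], ![4, 5, 6, 7, 0, 1, 2, 3], ![1, 0, 3, 2, 5, 4, 7, 6], ![1, 0, 3, 2, 5, 4, 7, 6], ![1, 0, 3, 2, 5, 4, 7, 6], ![1, 0, 3, 2, 5, 4, 7, 6]],
    ![![4, 5, 6, 7, 0, 1, 2, 3], ![2, 3, 0, 1, 6, 7, 4, 5], ![0, 1, 2, 3, 4, 5, 6, 7], ![2, 3, 0, 1, 6, 7, 4, 5], ![1, 0, 3, 2, 5, 4, 7, 6], ![1, 0, 3, 2, 5, 4, 7, 6], ![1, 0, 3, 2, 5, 4, 7, 6], ![1, 0, 3, 2, 5, 4, 7, 6]],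
    ![![2, 3, 0, 1, 6, 7, 4, 5], ![4, 5, 6, 7, 0, 1, 2, 3], ![2, 3, 0, 1, 6, 7, 4, 5], ![0, 1, 2, 3, 4, 5, 6, 7], ![1, 0, 3, 2, 5, 4, 7, 6], ![1, 0, 3, 2, 5, 4, 7, 6], ![1, 0, 3, 2, 5, 4, 7, 6], ![1, 0, 3, 2, 5, 4, 7, 6]],
    ![![1, 0, 3, 2, 5, 4, 7, 6], ![1, 0, 3, 2, 5, 4, 7, 6], ![1, 0, 3, 2, 5, 4, 7, 6], ![1, 0, 3, 2, 5, 4, 7, 6], ![0, 1, 2, 3, 4, 5, 6, 7], ![4, 5, 6, 7, 0, 1, 2, 3], ![2, 3, 0, 1, 6, 7, 4, 5], ![4, 5, 6, 7, 0, 1, 2, 3]],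
    ![![1, 0, 3, 2, 5, 4, 7, 6], ![1, 0, 3, 2, 5, 4, 7, 6], ![1, 0, 3, 2, 5, 4, 7, 6], ![1, 0, 3, 2, 5, 4, 7, 6], ![4, 5, 6, 7, 0, 1, 2, 3], ![0, 1, 2, 3, 4, 5, 6, 7], ![4, 5, 6, 7, 0, 1, 2, 3], ![2, 3, 0, 1, 6, 7, 4, 5]],
    ![![1, 0, 3, 2, 5, 4, 7, 6], ![1, 0, 3, 2, 5, 4, 7, 6], ![1, 0, 3, 2, 5, 4, 7, 6], ![1, 0, 3, 2, 5, 4, 7, 6], ![2, 3, 0, 1, 6, 7, 4, 5], ![4, 5, 6, 7, 0, 1, 2, 3], ![0, 1, 2, 3, 4, 5, 6, 7], ![4, 5, 6, 7, 0, 1, 2, 3]],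
    ![![1, 0, 3, 2, 5, 4, 7, 6], ![1, 0, 3, 2, 5, 4, 7, 6], ![1, 0, 3, 2, 5, 4, 7, 6], ![1, 0, 3, 2, 5, 4, 7, 6], ![4, 5, 6, 7, 0, 1, 2, 3], ![2, 3, 0, 1, 6, 7, 4, 5], ![4, 5, 6, 7, 0, 1, 2, 3], ![0, 1, 2, 3, 4, 5, 6, 7]]]

set_option maxRecDepth 100000

local instance fact11 : Fact (Nat.Prime 11) := ⟨by norm_num⟩

theorem hasGH_11 : HasGH 11 8 := by
  have h := isDM_matching (F := ZMod 11) (by rw [ZMod.ringChar_zmod_n]; norm_num) a11 b11 c11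
    (by decide) s11 (by decide) (by decide)
  exact hasGH_of_isDM (A := ZMod 11) (by simp) (by simp) (by simp) _ h

end Pool.Agent.GH8
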