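import Pool.Agent.Lib_helper14.GH8.Quad

set_option autoImplicit false

/-!
# Symplectic frames and the two-class construction
-/

namespace Pool.Agent.GH8

open Finset

section Frames

variable {F : Type} [Field F] [Fintype F] [DecidableEq F]

/-- The standard symplectic form on `F²`. -/
def br (u v : F × F) : F := u.1 * v.2 - u.2 * v.1

omit [Fintype F] [DecidableEq F] in
theorem disc_eq {u t u' t' v w : F × F} (hut : br u t = 1) (hut' : br u' t' = 1)
    (hvw : br v w = 1) (hp : br u v ≠ 0) (hp' : br u' v ≠ 0) (h4 : (4 : F) ≠ 0) (x x' z : F) :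
    (1 / br u v * x - 1 / br u' v * x') ^ 2 -
      4 * (-(br u w) / br u v - -(br u' w) / br u' v) *
        (br t v / (4 * br u v) * x ^ 2 - br t' v / (4 * br u' v) * x' ^ 2 - z) =
    (4 * br u u' * z - (br t u' * x ^ 2 - br u t' * x' ^ 2 + 2 * x * x')) *
      (1 / (br u v * br u' v)) := by
  have e1 : -(br u w) / br u v - -(br u' w) / br u' v = br u u' / (br u v * br u' v) := by
    have : br u v * br u' w - br u w * br u' v = br u u' * br v w := by
      simp only [br]; ring
    rw [hvw] at this
    field_simp
    linear_combination this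
  have e2 : br t v * br u u' - br u' v = br u v * br t u' := by
    have : br t v * br u u' - br u t * br u' v = br u v * br t u' := by
      simp only [br]; ring
    rw [hut] at this
    linear_combination this
  have e3 : br t' v * br u u' + br u v = br u' v * br u t' := by
    have : br t' v * br u u' + br u' t' * br u v = br u' v * br u t' := by
      simp only [br]; ring
    rw [hut'] at this
    linear_combination this
  rw [e1]
  generalize br u v = p at *
  generalize br u' v = p' at *
  generalize br t v = T at *
  generalize br t' v = T' at *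
  generalize br u u' = g at *
  generalize br t u' = m at *
  generalize br u t' = m' at *
  have hm : m = (T * g - p') / p := by
    rw [eq_div_iff hp]; linear_combination -e2
  have hm' : m' = (T' * g + p) / p' := by
    rw [eq_div_iff hp']; linear_combination -e3
  rw [hm, hm']
  field_simp
  ring

/-- Difference matrices from systems of symplectic frames. -/
theorem isDM_frames {I J : Type} [Fintype J] (hF : ringChar F ≠ 2)
    (U T : I → J → F × F) (V W : J → F × F)
    (hUT : ∀ i j, br (U i j) (T i j) = 1) (hVW : ∀ j, br (V j) (W j) = 1)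
    (hUV : ∀ i j, br (U i j) (V j) ≠ 0)
    (hUU : ∀ i i' j, i ≠ i' → br (U i j) (U i' j) ≠ 0)
    (hsum : ∀ i i', i ≠ i' → ∀ x x' z : F,
      ∑ j, quadraticChar F (br (U i j) (V j)) * quadraticChar F (br (U i' j) (V j)) *
        quadraticChar F (4 * br (U i j) (U i' j) * z -
          (br (T i j) (U i' j) * x ^ 2 - br (U i j) (T i' j) * x' ^ 2 + 2 * x * x')) = 0) :
    IsDM (Fintype.card J) (quadMat (fun i j => br (T i j) (V j) / (4 * br (U i j) (V j)))
      (fun i j => 1 / br (U i j) (V j)) (fun i j => -(br (U i j) (W j)) / br (U i j) (V j))) := by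
  have h2 : (2 : F) ≠ 0 := Ring.two_ne_zero hF
  have h4 : (4 : F) ≠ 0 := by
    have : (4 : F) = 2 * 2 := by norm_num
    rw [this]
    exact mul_ne_zero h2 h2
  refine isDM_quadMat hF _ _ _ ?_ ?_ ?_
  · intro i j
    exact one_div_ne_zero (hUV i j)
  · intro i i' j hne h
    have : br (U i j) (U i' j) = 0 := by
      have h1 : br (U i j) (V j) * br (U i' j) (W j) - br (U i j) (W j) * br (U i' j) (V j)
          = br (U i j) (U i' j) * br (V j) (W j) := by
        simp only [br]; ring
      rw [hVW j, mul_one] at h1
      rw [← h1]
      rw [div_eq_div_iff (hUV i j) (hUV i' j)] at h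
      linear_combination h
    exact hUU i i' j hne this
  · intro i i' hne x x' z
    rw [← hsum i i' hne x x' z]
    refine Finset.sum_congr rfl fun j _ => ?_
    rw [disc_eq (hUT i j) (hUT i' j) (hVW j) (hUV i j) (hUV i' j) h4]
    rw [map_mul]
    have : quadraticChar F (1 / (br (U i j) (V j) * br (U i' j) (V j))) =
        quadraticChar F (br (U i j) (V j)) * quadraticChar F (br (U i' j) (V j)) := by
      have hp := mul_ne_zero (hUV i j) (hUV i' j)
      have e : (1 : F) / (br (U i j) (V j) * br (U i' j) (V j)) =
          (br (U i j) (V j) * br (U i' j) (V j)) *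
            ((br (U i j) (V j) * br (U i' j) (V j))⁻¹) ^ 2 := by
        field_simp
      rw [e, map_mul, quadraticChar_sq_one' (inv_ne_zero hp), mul_one, map_mul]
    rw [this]
    ring

end Frames

end Pool.Agent.GH8
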