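import Pool.Agent.Lib_helper14.GH8.Basic

set_option autoImplicit false

/-!
# `GH(q, q - 1)` when `q` and `q - 1` are both orders of finite fields; `GH(2^k, 8)`
-/

namespace Pool.Agent.GH8

open Finset

section Seberry

variable {K F : Type} [Field K] [Fintype K] [DecidableEq K] [Field F] [Fintype F] [DecidableEq F]

/-- The `i`-th parallel class of lines of the affine plane over `K`. -/
def lineOf (i : Option K) (p : K × K) : K :=
  match i with
  | none => p.1
  | some m => p.1 * m + p.2

omit [Fintype K] [DecidableEq K] in
theorem lineOf_unique {p p' : K × K} (h : p ≠ p') :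
    ∃ i₀ : Option K, ∀ i : Option K, lineOf i p = lineOf i p' ↔ i = i₀ := by
  classical
  by_cases h1 : p.1 = p'.1
  · refine ⟨none, fun i => ?_⟩
    cases i with
    | none => simp [lineOf, h1]
    | some m =>
      simp only [lineOf, h1, add_right_inj, reduceCtorEq, iff_false]
      intro h2
      exact h (Prod.ext h1 h2)
  · refine ⟨some ((p'.2 - p.2) / (p.1 - p'.1)), fun i => ?_⟩
    have hd : p.1 - p'.1 ≠ 0 := sub_ne_zero.mpr h1
    cases i with
    | none => simp [lineOf, h1]
    | some m =>
      simp only [lineOf, Option.some.injEq]
      rw [eq_div_iff hd]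
      constructor
      · intro h2; linear_combination h2
      · intro h2; linear_combination h2

theorem isDM_seberry (e : K ≃ Fˣ) (φ : Option K ≃ F) :
    IsDM (Fintype.card K) (fun (r : (K × K) ⊕ Fˣ) (c : Option K × Fˣ) =>
      match r with
      | .inl p => (e (lineOf c.1 p) : F) * (c.2 : F)
      | .inr u => (u : F) * φ c.1) := by
  classical
  have hcard : Fintype.card Fˣ = Fintype.card K := Fintype.card_congr e.symm
  -- point rows
  have hpp : ∀ p p' : K × K, p ≠ p' → ∀ g : F,
      (univ.filter (fun c : Option K × Fˣ =>
        (e (lineOf c.1 p) : F) * (c.2 : F) - (e (lineOf c.1 p') : F) * (c.2 : F) = g)).card =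
        Fintype.card K := by
    intro p p' hne g
    obtain ⟨i₀, hi₀⟩ := lineOf_unique hne
    rw [Finset.card_filter, Fintype.sum_prod_type]
    by_cases hg : g = 0
    · subst hg
      have : ∀ i : Option K, (∑ y : Fˣ, if (e (lineOf i p) : F) * (y : F) -
          (e (lineOf i p') : F) * (y : F) = 0 then 1 else 0) =
          if i = i₀ then Fintype.card K else 0 := by
        intro i
        split_ifs with hi
        · have := (hi₀ i).mpr hi
          simp [this, hcard]
        · have hl : lineOf i p ≠ lineOf i p' := fun h => hi ((hi₀ i).mp h)
          refine Finset.sum_eq_zero fun y _ => ?_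
          rw [if_neg]
          intro h
          rw [← sub_mul] at h
          rcases mul_eq_zero.mp h with h' | h'
          · exact hl (e.injective (Units.ext (sub_eq_zero.mp h')))
          · exact y.ne_zero h'
      rw [Finset.sum_congr rfl fun i _ => this i]
      simp
    · have : ∀ i : Option K, (∑ y : Fˣ, if (e (lineOf i p) : F) * (y : F) -
          (e (lineOf i p') : F) * (y : F) = g then 1 else 0) =
          if i = i₀ then 0 else 1 := by
        intro i
        split_ifs with hi
        · have := (hi₀ i).mpr hi
          refine Finset.sum_eq_zero fun y _ => ?_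
          rw [if_neg]
          intro h
          rw [this, sub_self] at h
          exact hg h.symm
        · have hl : lineOf i p ≠ lineOf i p' := fun h => hi ((hi₀ i).mp h)
          have hd : (e (lineOf i p) : F) - (e (lineOf i p') : F) ≠ 0 := by
            intro h'
            exact hl (e.injective (Units.ext (sub_eq_zero.mp h')))
          have hy : ∀ y : Fˣ, ((e (lineOf i p) : F) * (y : F) -
            (e (lineOf i p') : F) * (y : F) = g) ↔
              y = Units.mk0 (g / ((e (lineOf i p) : F) - (e (lineOf i p') : F)))
                (div_ne_zero hg hd) := by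
            intro y
            rw [← sub_mul, Units.ext_iff, Units.val_mk0, eq_div_iff hd, mul_comm]
          simp only [hy]
          simp
      rw [Finset.sum_congr rfl fun i _ => this i]
      have h2 : (∑ i : Option K, if i = i₀ then 0 else 1) + 1 = Fintype.card (Option K) := by
        have h3 : (∑ i : Option K, if i = i₀ then 0 else 1) + (∑ i : Option K, if i = i₀ then 1 else 0)
            = Fintype.card (Option K) := by
          rw [← Finset.sum_add_distrib]
          have : ∀ i : Option K, ((if i = i₀ then 0 else 1) + (if i = i₀ then 1 else 0)) = 1 := by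
            intro i; split_ifs <;> rfl
          simp [this]
        simpa using h3
      rw [Fintype.card_option] at h2
      omega
  -- mixed rows
  have hpu : ∀ (p : K × K) (u : Fˣ), ∀ g : F,
      (univ.filter (fun c : Option K × Fˣ =>
        (e (lineOf c.1 p) : F) * (c.2 : F) - (u : F) * φ c.1 = g)).card =
        Fintype.card K := by
    intro p u g
    rw [Finset.card_filter, Fintype.sum_prod_type]
    have : ∀ i : Option K, (∑ y : Fˣ, if (e (lineOf i p) : F) * (y : F) -
          (u : F) * φ i = g then 1 else 0) =
          if i = φ.symm (-(g * ((u⁻¹ : Fˣ) : F))) then 0 else 1 := by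
      intro i
      have hiff : i = φ.symm (-(g * ((u⁻¹ : Fˣ) : F))) ↔ g + u * φ i = 0 := by
        rw [Equiv.eq_symm_apply]
        constructor
        · intro h
          rw [h]
          have : (u : F) * ((u⁻¹ : Fˣ) : F) = 1 := by simp
          linear_combination (-g) * this
        · intro h
          have : ((u⁻¹ : Fˣ) : F) * (u : F) = 1 := by simp
          linear_combination ((u⁻¹ : Fˣ) : F) * h - φ i * this
      split_ifs with hi
      · refine Finset.sum_eq_zero fun y _ => ?_
        rw [if_neg]
        intro h
        have h0 := hiff.mp hi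
        have : (e (lineOf i p) : F) * (y : F) = 0 := by linear_combination h + h0
        exact (mul_ne_zero (e (lineOf i p)).ne_zero y.ne_zero) this
      · have hne : g + u * φ i ≠ 0 := fun h => hi (hiff.mpr h)
        have hy : ∀ y : Fˣ, ((e (lineOf i p) : F) * (y : F) - (u : F) * φ i = g) ↔
              y = Units.mk0 ((g + u * φ i) / (e (lineOf i p) : F))
                (div_ne_zero hne (e (lineOf i p)).ne_zero) := by
          intro y
          rw [Units.ext_iff, Units.val_mk0, eq_div_iff (e (lineOf i p)).ne_zero]
          constructor
          · intro h; linear_combination h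
          · intro h; linear_combination h
        simp only [hy]
        simp
    rw [Finset.sum_congr rfl fun i _ => this i]
    generalize φ.symm (-(g * ((u⁻¹ : Fˣ) : F))) = i₀
    have h3 : (∑ i : Option K, if i = i₀ then 0 else 1) + (∑ i : Option K, if i = i₀ then 1 else 0)
        = Fintype.card (Option K) := by
      rw [← Finset.sum_add_distrib]
      have : ∀ i : Option K, ((if i = i₀ then 0 else 1) + (if i = i₀ then 1 else 0)) = 1 := by
        intro i; split_ifs <;> rfl
      simp [this]
    have h2 : (∑ i : Option K, if i = i₀ then 0 else 1) + 1 = Fintype.card (Option K) := by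
      simpa using h3
    rw [Fintype.card_option] at h2
    omega
  -- negation symmetry
  have hneg : ∀ (f f' : Option K × Fˣ → F) (g : F),
      (univ.filter (fun c => f c - f' c = g)).card =
        (univ.filter (fun c => f' c - f c = -g)).card := by
    intro f f' g
    congr 1
    ext c
    simp only [mem_filter, mem_univ, true_and]
    rw [← neg_inj (a := f c - f' c), neg_sub]
  rintro (p | u) (p' | u') hne g
  · exact hpp p p' (fun h => hne (by rw [h])) g
  · exact hpu p u' g
  · have := hneg (fun c => (u : F) * φ c.1) (fun c => (e (lineOf c.1 p') : F) * (c.2 : F)) g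
    refine Eq.trans this ?_
    exact hpu p' u (-g)
  · have huu : (u : F) - (u' : F) ≠ 0 := by
      intro h
      exact hne (by rw [Units.ext (sub_eq_zero.mp h)])
    change (univ.filter (fun c : Option K × Fˣ => (u : F) * φ c.1 - (u' : F) * φ c.1 = g)).card = _
    rw [Finset.card_filter, Fintype.sum_prod_type]
    have : ∀ i : Option K, (∑ _y : Fˣ, if (u : F) * φ i - (u' : F) * φ i = g then 1 else 0) =
          if i = φ.symm (g / ((u : F) - (u' : F))) then Fintype.card K else 0 := by
      intro i
      have hiff : i = φ.symm (g / ((u : F) - (u' : F))) ↔ (u : F) * φ i - (u' : F) * φ i = g := by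
        rw [Equiv.eq_symm_apply, eq_div_iff huu]
        constructor
        · intro h; linear_combination h
        · intro h; linear_combination h
      by_cases hi : i = φ.symm (g / ((u : F) - (u' : F)))
      · simp [hiff.mp hi, if_pos hi, hcard]
      · have hn : ¬ ((u : F) * φ i - (u' : F) * φ i = g) := fun h => hi (hiff.mpr h)
        simp [hn, if_neg hi]
    rw [Finset.sum_congr rfl fun i _ => this i]
    simp

theorem hasGH_sub_one (h : Fintype.card K + 1 = Fintype.card F) :
    HasGH (Fintype.card F) (Fintype.card K) := by
  classical
  have hu : Fintype.card Fˣ = Fintype.card K := by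
    rw [Fintype.card_units]; omega
  let e : K ≃ Fˣ := Fintype.equivOfCardEq hu.symm
  let φ : Option K ≃ F := Fintype.equivOfCardEq (by rw [Fintype.card_option, h])
  refine hasGH_of_isDM (A := F) rfl ?_ ?_ _ (isDM_seberry e φ)
  · rw [Fintype.card_sum, Fintype.card_prod, hu, ← h]; ring
  · rw [Fintype.card_prod, Fintype.card_option, hu, ← h]

end Seberry

/-- Finite fields of prime power order. -/
theorem exists_field (p n : ℕ) [Fact p.Prime] (hn : n ≠ 0) :
    ∃ (F : Type) (_ : Field F) (_ : Fintype F) (_ : DecidableEq F),
      Fintype.card F = p ^ n ∧ CharP F p := by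
  classical
  letI : Fintype (GaloisField p n) := Fintype.ofFinite _
  refine ⟨GaloisField p n, inferInstance, inferInstance, inferInstance, ?_, inferInstance⟩
  rw [← Nat.card_eq_fintype_card, GaloisField.card p n hn]

theorem hasGH_9 : HasGH 9 8 := by
  obtain ⟨F, _, _, _, hF, _⟩ := exists_field 3 2 (by norm_num)
  obtain ⟨K, _, _, _, hK, _⟩ := exists_field 2 3 (by norm_num)
  norm_num at hF hK
  have h := hasGH_sub_one (K := K) (F := F) (by rw [hK, hF])
  rwa [hK, hF] at h

/-- `GH(2^k, 8)`. -/
theorem hasGH_two_pow (k : ℕ) : HasGH (2 ^ k) 8 := by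
  classical
  let F := GaloisField 2 (k + 3)
  letI : Fintype F := Fintype.ofFinite _
  have hcard : Fintype.card F = 2 ^ (k + 3) := by
    rw [← Nat.card_eq_fintype_card, GaloisField.card 2 (k + 3) (by omega)]
  have hfr : Module.finrank (ZMod 2) F = k + 3 := GaloisField.finrank 2 (by omega)
  let b : Module.Basis (Fin (k + 3)) (ZMod 2) F := Module.finBasisOfFinrankEq (ZMod 2) F hfr
  let A := Fin k → ZMod 2
  let φ : F →+ A :=
    { toFun := fun x i => b.repr x (Fin.castAdd 3 i)
      map_zero' := by funext i; simp; rfl
      map_add' := by intro x y; funext i; simp; rfl }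
  have hsurj : Function.Surjective φ := by
    intro y
    refine ⟨b.equivFun.symm (fun j => if h : (j : ℕ) < k then y ⟨j, h⟩ else 0), ?_⟩
    funext i
    change b.repr (b.equivFun.symm _) (Fin.castAdd 3 i) = y i
    have := congrFun (b.equivFun.apply_symm_apply
      (fun j => if h : (j : ℕ) < k then y ⟨j, h⟩ else 0)) (Fin.castAdd 3 i)
    rw [Module.Basis.equivFun_apply] at this
    rw [this]
    simp
  have hA : Fintype.card A = 2 ^ k := by simp [A]
  have hfib : ∀ g : A, (univ.filter (fun x : F => φ x = g)).card = 8 := by
    have hconst : ∀ g g' : A, (univ.filter (fun x : F => φ x = g)).card =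
        (univ.filter (fun x : F => φ x = g')).card := by
      intro g g'
      obtain ⟨z, hz⟩ := hsurj (g' - g)
      refine Finset.card_bij (fun x _ => x + z) ?_ ?_ ?_
      · intro x hx
        simp only [mem_filter, mem_univ, true_and] at hx ⊢
        rw [map_add, hx, hz]; abel
      · intro x _ y _ hxy
        exact add_right_cancel hxy
      · intro y hy
        simp only [mem_filter, mem_univ, true_and] at hy
        refine ⟨y - z, ?_, by simp⟩
        simp only [mem_filter, mem_univ, true_and]
        rw [map_sub, hy, hz]; abel
    intro g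
    have hsum : ∑ g' : A, (univ.filter (fun x : F => φ x = g')).card = Fintype.card F := by
      rw [← Finset.card_eq_sum_card_fiberwise (fun x _ => mem_univ (φ x))]
      rfl
    rw [Finset.sum_congr rfl fun g' _ => hconst g' g, Finset.sum_const, Finset.card_univ, hA,
      hcard, smul_eq_mul, pow_add] at hsum
    have := Nat.eq_of_mul_eq_mul_left (by positivity) hsum
    rw [this]; norm_num
  refine hasGH_of_isDM (R := F) (C := F) (A := A) hA (by rw [hcard, pow_add]; norm_num)
    (by rw [hcard, pow_add]; norm_num) (fun x y => φ (x * y)) ?_
  intro x x' hne g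
  rw [← hfib g]
  have hd : x - x' ≠ 0 := sub_ne_zero.mpr hne
  refine Finset.card_bij (fun y _ => (x - x') * y) ?_ ?_ ?_
  · intro y hy
    simp only [mem_filter, mem_univ, true_and] at hy ⊢
    rw [sub_mul, map_sub, hy]
  · intro y _ z _ h
    exact mul_left_cancel₀ hd h
  · intro z hz
    refine ⟨(x - x')⁻¹ * z, ?_, ?_⟩
    · simp only [mem_filter, mem_univ, true_and] at hz ⊢
      rw [← map_sub, ← sub_mul, ← mul_assoc, mul_inv_cancel₀ hd, one_mul, hz]
    · rw [← mul_assoc, mul_inv_cancel₀ hd, one_mul]

end Pool.Agent.GH8
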