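import Pool.Agent.Lib_helper14.GH8.Quad

set_option autoImplicit false

/-!
# `GH(q, q + 1)` for prime powers `q ≡ 3 (mod 4)`; in particular `GH(7, 8)`

Rows and columns are indexed by `Option F × F`.  The complete graph on `Option F = F ∪ {∞}` has the
proper edge colouring `c(i, j) = i + j`, `c(i, ∞) = 2 i`; the off-diagonal block `(i, j)` is the
rank one block `c (x - y) + c ^ 2` and the diagonal blocks are `- (x - y) ^ 2 / 4`.
-/

namespace Pool.Agent.GH8

open Finset

section Seven

variable {F : Type} [Field F] [Fintype F] [DecidableEq F]

/-- The edge colouring. -/
def col : Option F → Option F → F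
  | some i, some j => i + j
  | some i, none => 2 * i
  | none, some j => 2 * j
  | none, none => 0

omit [Fintype F] [DecidableEq F] in
theorem col_comm (i j : Option F) : col i j = col j i := by
  cases i <;> cases j <;> simp [col, add_comm]

omit [Fintype F] [DecidableEq F] in
theorem col_proper (h2 : (2 : F) ≠ 0) {i j j' : Option F} (hj : j ≠ i) (hj' : j' ≠ i)
    (h : col i j = col i j') : j = j' := by
  cases i with
  | none =>
    cases j with
    | none => exact absurd rfl hj
    | some j =>
      cases j' with
      | none => exact absurd rfl hj'
      | some j' => simpa [col, h2] using h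
  | some i =>
    cases j with
    | none =>
      cases j' with
      | none => rfl
      | some j' =>
        exfalso
        apply hj'
        simp only [col] at h
        have : j' = i := by linear_combination -h
        rw [this]
    | some j =>
      cases j' with
      | none =>
        exfalso
        apply hj
        simp only [col] at h
        have : j = i := by linear_combination h
        rw [this]
      | some j' => simpa [col] using h

omit [Fintype F] in
theorem col_surj (h2 : (2 : F) ≠ 0) (i : Option F) (w : F) : ∃ j, j ≠ i ∧ col i j = w := by
  cases i with
  | none => exact ⟨some (w / 2), by simp, by simp only [col]; field_simp⟩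
  | some i =>
    by_cases hw : w = 2 * i
    · exact ⟨none, by simp, by simp [col, hw]⟩
    · refine ⟨some (w - i), ?_, by simp [col]⟩
      intro h
      apply hw
      have := Option.some.inj h
      linear_combination this

/-- The matrix. -/
def mat7 (p q : Option F × F) : F :=
  if p.1 = q.1 then -(4 : F)⁻¹ * (p.2 - q.2) ^ 2
  else col p.1 q.1 * (p.2 - q.2) + col p.1 q.1 ^ 2

theorem isDM_mat7 (hF : ringChar F ≠ 2) (hm : quadraticChar F (-1) = -1) :
    IsDM (Fintype.card F + 1) (mat7 (F := F)) := by
  classical
  have h2 : (2 : F) ≠ 0 := Ring.two_ne_zero hF
  have h4 : (4 : F) ≠ 0 := by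
    have : (4 : F) = 2 * 2 := by norm_num
    rw [this]
    exact mul_ne_zero h2 h2
  rintro ⟨i, x⟩ ⟨i', x'⟩ hne g
  have key : (((univ.filter (fun k : Option F × F => mat7 (i, x) k - mat7 (i', x') k = g)).card : ℕ) : ℤ)
      = ∑ j : Option F, (((univ.filter (fun y : F => mat7 (i, x) (j, y) -
          mat7 (i', x') (j, y) = g)).card : ℕ) : ℤ) := by
    rw [Finset.card_filter, Fintype.sum_prod_type]
    push_cast
    refine Finset.sum_congr rfl fun j _ => ?_
    rw [Finset.card_filter]
    push_cast
    rfl
  have goal : (((univ.filter (fun k : Option F × F => mat7 (i, x) k - mat7 (i', x') k = g)).card : ℕ) : ℤ)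
      = (Fintype.card F : ℤ) + 1 := by
    rw [key]
    by_cases hii : i = i'
    · subst hii
      have hx : x ≠ x' := fun h => hne (by rw [h])
      have hd : x - x' ≠ 0 := sub_ne_zero.mpr hx
      obtain ⟨j₀, hj₀, hcj₀⟩ := col_surj h2 i (g / (x - x'))
      have h1 : ∀ j : Option F, (((univ.filter (fun y : F => mat7 (i, x) (j, y) -
          mat7 (i, x') (j, y) = g)).card : ℕ) : ℤ) =
          (if j = i then 1 else 0) + (if j = j₀ then (Fintype.card F : ℤ) else 0) := by
        intro j
        by_cases hj : j = i
        · have hji : j ≠ j₀ := fun h => hj₀ (h ▸ hj)
          rw [if_pos hj, if_neg hji, add_zero]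
          subst hj
          have : (univ.filter (fun y : F => mat7 (j, x) (j, y) - mat7 (j, x') (j, y) = g)) =
              {(x + x') / 2 + 2 * g / (x - x')} := by
            ext y
            simp only [mem_filter, mem_univ, true_and, mem_singleton]
            simp only [mat7, if_true]
            constructor
            · intro h
              field_simp
              field_simp at h
              linear_combination h
            · intro h
              rw [h]
              field_simp
              ring
          rw [this]
          simp
        · rw [if_neg hj, zero_add]
          have hij : i ≠ j := fun h => hj h.symm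
          have hval : ∀ y : F, mat7 (i, x) (j, y) - mat7 (i, x') (j, y) = col i j * (x - x') := by
            intro y
            simp only [mat7, if_neg hij]
            ring
          simp only [hval]
          by_cases hjj : j = j₀
          · rw [if_pos hjj, hjj, hcj₀, div_mul_cancel₀ _ hd]
            simp
          · rw [if_neg hjj]
            have : ¬ (col i j * (x - x') = g) := by
              intro h
              apply hjj
              apply col_proper h2 hj hj₀
              rw [hcj₀, eq_div_iff hd, h]
            simp [this]
      rw [Finset.sum_congr rfl fun j _ => h1 j, Finset.sum_add_distrib]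
      simp [add_comm]
    · have hcc : col i i' = col i' i := col_comm _ _
      have hii' : ¬ i' = i := fun h => hii h.symm
      have h1 : ∀ j : Option F, (((univ.filter (fun y : F => mat7 (i, x) (j, y) -
          mat7 (i', x') (j, y) = g)).card : ℕ) : ℤ) =
          1 + (if j = i then quadraticChar F (col i i' * (x - x') - g) else 0) +
          (if j = i' then -quadraticChar F (col i i' * (x - x') - g) else 0) := by
        intro j
        by_cases hji : j = i
        · have hji' : ¬ j = i' := fun h => hii (hji.symm.trans h)
          rw [if_pos hji, if_neg hji', add_zero]
          subst hji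
          have hC : (-(4 : F)⁻¹) ≠ 0 := neg_ne_zero.mpr (inv_ne_zero h4)
          have hq := card_quad hF hC (col j i' - 2 * (-(4 : F)⁻¹) * x)
            (-(4 : F)⁻¹ * x ^ 2 - col j i' * x' - col j i' ^ 2) g
          have hdisc : (col j i' - 2 * (-(4 : F)⁻¹) * x) ^ 2 - 4 * (-(4 : F)⁻¹) *
              (-(4 : F)⁻¹ * x ^ 2 - col j i' * x' - col j i' ^ 2 - g) =
              col j i' * (x - x') - g := by
            field_simp
            ring
          rw [hdisc] at hq
          rw [add_comm, ← hq]
          congr 2
          ext y
          simp only [mem_filter, mem_univ, true_and]
          simp only [mat7, if_true, if_neg (Ne.symm hji'), col_comm i' j]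
          constructor
          · intro h; linear_combination h
          · intro h; linear_combination h
        · by_cases hji' : j = i'
          · rw [if_neg hji, if_pos hji', add_zero]
            subst hji'
            have hC : (-(-(4 : F)⁻¹)) ≠ 0 := neg_ne_zero.mpr (neg_ne_zero.mpr (inv_ne_zero h4))
            have hq := card_quad hF hC (2 * (-(4 : F)⁻¹) * x' - col i j)
              (col i j * x + col i j ^ 2 - -(4 : F)⁻¹ * x' ^ 2) g
            have hdisc : (2 * (-(4 : F)⁻¹) * x' - col i j) ^ 2 - 4 * (-(-(4 : F)⁻¹)) *
                (col i j * x + col i j ^ 2 - -(4 : F)⁻¹ * x' ^ 2 - g) =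
                (-1) * (col i j * (x - x') - g) := by
              field_simp
              ring
            rw [hdisc, map_mul, hm, neg_one_mul] at hq
            rw [add_comm, ← hq]
            congr 2
            ext y
            simp only [mem_filter, mem_univ, true_and]
            simp only [mat7, if_true, if_neg hii]
            constructor
            · intro h; linear_combination h
            · intro h; linear_combination h
          · rw [if_neg hji, if_neg hji']
            have hij : ¬ i = j := fun h => hji h.symm
            have hij' : ¬ i' = j := fun h => hji' h.symm
            have hcd : col i j - col i' j ≠ 0 := by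
              intro h
              rw [col_comm i j, col_comm i' j] at h
              exact hii (col_proper h2 hij hij' (sub_eq_zero.mp h))
            have : (univ.filter (fun y : F => mat7 (i, x) (j, y) - mat7 (i', x') (j, y) = g)) =
                {(col i j * x + col i j ^ 2 - col i' j * x' - col i' j ^ 2 - g) /
                  (col i j - col i' j)} := by
              ext y
              simp only [mem_filter, mem_univ, true_and, mem_singleton]
              simp only [mat7, if_neg hij, if_neg hij']
              rw [eq_div_iff hcd]
              constructor
              · intro h; linear_combination -h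
              · intro h; linear_combination -h
            rw [this]
            simp
      rw [Finset.sum_congr rfl fun j _ => h1 j, Finset.sum_add_distrib, Finset.sum_add_distrib]
      rw [Finset.sum_ite_eq', Finset.sum_ite_eq']
      simp
  exact_mod_cast goal

/-- `GH(q, q + 1)` for the orders `q` of finite fields in which `-1` is a non-square. -/
theorem hasGH_add_one (hF : ringChar F ≠ 2) (hm : quadraticChar F (-1) = -1) :
    HasGH (Fintype.card F) (Fintype.card F + 1) := by
  refine hasGH_of_isDM (R := Option F × F) (C := Option F × F) (A := F) rfl ?_ ?_ _
    (isDM_mat7 hF hm)
  · rw [Fintype.card_prod, Fintype.card_option]; ring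
  · rw [Fintype.card_prod, Fintype.card_option]; ring

local instance fact7 : Fact (Nat.Prime 7) := ⟨by norm_num⟩

theorem hasGH_7 : HasGH 7 8 := by
  have h := hasGH_add_one (F := ZMod 7) (by rw [ZMod.ringChar_zmod_n]; norm_num) (by decide)
  rwa [ZMod.card] at h

end Seven

end Pool.Agent.GH8
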