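import Pool.Agent.Lib_helper14.GH8.Points

set_option autoImplicit false

/-!
# `GH(q, 8)` for `q = 13, 17, 19, 23`
-/

namespace Pool.Agent.GH8

open Finset

set_option maxRecDepth 100000

local instance fact13 : Fact (Nat.Prime 13) := ⟨by norm_num⟩
local instance fact17 : Fact (Nat.Prime 17) := ⟨by norm_num⟩
local instance fact19 : Fact (Nat.Prime 19) := ⟨by norm_num⟩
local instance fact23 : Fact (Nat.Prime 23) := ⟨by norm_num⟩

theorem hasGH_13 : HasGH 13 8 := by
  have h := hasGH_of_points (F := ZMod 13) (by rw [ZMod.ringChar_zmod_n]; norm_num) 2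
    (fun i => bif i.2 then (![12, 10, 11, 8] : Fin 4 → ZMod 13) i.1
      else (![3, 4, 5, 7] : Fin 4 → ZMod 13) i.1)
    (by decide) (by decide) (by decide) (by decide) (by decide)
  rwa [ZMod.card] at h

theorem hasGH_17 : HasGH 17 8 := by
  have h := hasGH_of_points (F := ZMod 17) (by rw [ZMod.ringChar_zmod_n]; norm_num) 2
    (fun i => bif i.2 then (![10, 15, 12, 16] : Fin 4 → ZMod 17) i.1
      else (![3, 4, 7, 9] : Fin 4 → ZMod 17) i.1)
    (by decide) (by decide) (by decide) (by decide) (by decide)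
  rwa [ZMod.card] at h

theorem hasGH_19 : HasGH 19 8 := by
  have h := hasGH_of_points (F := ZMod 19) (by rw [ZMod.ringChar_zmod_n]; norm_num) 2
    (fun i => bif i.2 then (![13, 16, 7, 12] : Fin 4 → ZMod 19) i.1
      else (![3, 4, 6, 10] : Fin 4 → ZMod 19) i.1)
    (by decide) (by decide) (by decide) (by decide) (by decide)
  rwa [ZMod.card] at h

theorem hasGH_23 : HasGH 23 8 := by
  have h := hasGH_of_points (F := ZMod 23) (by rw [ZMod.ringChar_zmod_n]; norm_num) 2
    (fun i => bif i.2 then (![4, 17, 15, 16] : Fin 4 → ZMod 23) i.1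
      else (![3, 7, 11, 12] : Fin 4 → ZMod 23) i.1)
    (by decide) (by decide) (by decide) (by decide) (by decide)
  rwa [ZMod.card] at h

end Pool.Agent.GH8
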