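import Pool.Agent.Lib_helper14.GH8.Three
import Pool.Agent.Lib_helper14.GH8.SmallPrimes
import Pool.Agent.Lib_helper14.GH8.Seven
import Pool.Agent.Lib_helper14.GH8.Nine
import Pool.Agent.Lib_helper14.GH8.Eleven

set_option autoImplicit false

/-!
# `GH(s, 8)` for every prime power `s` different from `5`
-/

namespace Pool.Agent.GH8

open Finset

theorem not_primePow_of {n p q : ℕ} (hp : p.Prime) (hq : q.Prime) (hpq : p ≠ q) (hpn : p ∣ n)
    (hqn : q ∣ n) : ¬ IsPrimePow n := by
  intro h
  obtain ⟨r, k, hr, _, rfl⟩ := (isPrimePow_nat_iff n).mp h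
  have h1 := (Nat.prime_dvd_prime_iff_eq hp hr).mp (hp.dvd_of_dvd_pow hpn)
  have h2 := (Nat.prime_dvd_prime_iff_eq hq hr).mp (hq.dvd_of_dvd_pow hqn)
  exact hpq (h1.trans h2.symm)

theorem hasGH_of_isPrimePow {s : ℕ} (hs : IsPrimePow s) (h5 : s ≠ 5) : HasGH s 8 := by
  obtain ⟨p, k, hp, hk, hpk⟩ := (isPrimePow_nat_iff s).mp hs
  haveI : Fact p.Prime := ⟨hp⟩
  by_cases hp2 : p = 2
  · subst hp2
    rw [← hpk]
    exact hasGH_two_pow k
  · by_cases h25 : 25 ≤ s
    · obtain ⟨F, _, _, _, hF, _⟩ := exists_field p k hk.ne'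
      have hchar : ringChar F ≠ 2 := by
        rw [ringChar.eq F p]; exact hp2
      have h := hasGH_of_card_ge (F := F) hchar (by rw [hF, hpk]; exact h25)
      rwa [hF, hpk] at h
    · have hodd : s % 2 = 1 := by
        have h1 : Odd p := hp.odd_of_ne_two hp2
        have h2 : Odd s := by rw [← hpk]; exact h1.pow
        exact Nat.odd_iff.mp h2
      have hlt : s < 25 := by omega
      have h1 : s ≠ 1 := hs.ne_one
      have h15 : s ≠ 15 := by
        rintro rfl
        exact not_primePow_of (p := 3) (q := 5) (by norm_num) (by norm_num) (by norm_num)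
          (by norm_num) (by norm_num) hs
      have h21 : s ≠ 21 := by
        rintro rfl
        exact not_primePow_of (p := 3) (q := 7) (by norm_num) (by norm_num) (by norm_num)
          (by norm_num) (by norm_num) hs
      have : s = 3 ∨ s = 7 ∨ s = 9 ∨ s = 11 ∨ s = 13 ∨ s = 17 ∨ s = 19 ∨ s = 23 := by omega
      rcases this with rfl | rfl | rfl | rfl | rfl | rfl | rfl | rfl
      · exact hasGH_3
      · exact hasGH_7
      · exact hasGH_9
      · exact hasGH_11
      · exact hasGH_13
      · exact hasGH_17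
      · exact hasGH_19
      · exact hasGH_23

end Pool.Agent.GH8
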