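import Pool.Agent.Lib_helper14.GH8.TwoClass

set_option autoImplicit false

/-!
# Existence of the points for `q ≥ 25`
-/

namespace Pool.Agent.GH8

open Finset

section Points

variable {F : Type} [Field F] [Fintype F] [DecidableEq F]

/-- The two-class construction from eight points of the affine line. -/
theorem hasGH_of_points (hF : ringChar F ≠ 2) (t : F) (r : Fin 4 × Bool → F)
    (hinj : Function.Injective r) (h0 : ∀ i, r i ≠ 0) (h1 : ∀ i, r i ≠ 1) (ht : ∀ i, r i ≠ t)
    (horth : ∀ i i', i.1 ≠ i'.1 →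
      quadraticChar F (r i) * quadraticChar F (r i') + 1 +
      quadraticChar F (1 - r i) * quadraticChar F (1 - r i') +
      quadraticChar F (t - r i) * quadraticChar F (t - r i') = 0) :
    HasGH (Fintype.card F) 8 := by
  obtain ⟨d, hd⟩ := quadraticChar_exists_neg_one hF
  have hex : ∃ D : (Fin 4 × Bool) × F → (Bool × Fin 4) × F → F, IsDM 8 D := by
    refine isDM_two_class hF (fun i => ((1 : F), r i))
      ![((1 : F), (0 : F)), (0, 1), (1, 1), (1, t)] ![((0 : F), (1 : F)), (-1, 0), (0, 1), (0, 1)]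
      d hd ?_ ?_ ?_ ?_
    · intro j
      fin_cases j <;> simp [br]
    · intro i j
      fin_cases j
      · simpa [br] using h0 i
      · simp [br]
      · simpa [br, sub_eq_zero] using (h1 i).symm
      · simpa [br, sub_eq_zero] using (ht i).symm
    · intro i i' hne
      have : r i' - r i ≠ 0 := sub_ne_zero.mpr fun h => hne (hinj h).symm
      simpa [br] using this
    · intro i i' hne
      have h := horth i i' hne
      have hm : quadraticChar F (-(r i)) * quadraticChar F (-(r i')) =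
          quadraticChar F (r i) * quadraticChar F (r i') := by
        rw [← map_mul, neg_mul_neg, map_mul]
      rw [Fin.sum_univ_four]
      simp only [br, Matrix.cons_val_zero, Matrix.cons_val_one, Matrix.cons_val,
        mul_zero, mul_one, one_mul, zero_sub, sub_zero, map_one]
      rw [hm]
      linarith
  obtain ⟨D, hD⟩ := hex
  refine hasGH_of_isDM (A := F) rfl ?_ ?_ D hD
  · simp [mul_comm]
  · simp [mul_comm]

theorem sum_chi_one_sub (hF : ringChar F ≠ 2) :
    ∑ x : F, quadraticChar F x * quadraticChar F (1 - x) = -quadraticChar F (-1) := by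
  have h := jacobiSum_nontrivial_inv (quadraticChar_ne_one hF)
  rw [MulChar.IsQuadratic.inv (quadraticChar_isQuadratic F)] at h
  rw [← h]
  rfl

theorem sum_chi_sub (hF : ringChar F ≠ 2) {t : F} (ht : t ≠ 0) :
    ∑ x : F, quadraticChar F x * quadraticChar F (t - x) = -quadraticChar F (-1) := by
  rw [← sum_chi_one_sub hF]
  refine (Fintype.sum_equiv (Equiv.mulLeft₀ t ht) _ _ ?_).symm
  intro x
  simp only [Equiv.mulLeft₀_apply]
  have : t - t * x = t * (1 - x) := by ring
  rw [this, map_mul, map_mul]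
  have h2 := quadraticChar_sq_one ht
  linear_combination (-(quadraticChar F x) * quadraticChar F (1 - x)) * h2

theorem sum_chi_sub_sub (hF : ringChar F ≠ 2) {t : F} (ht : t ≠ 1) :
    ∑ x : F, quadraticChar F (1 - x) * quadraticChar F (t - x) = -1 := by
  have h1 : (1 - t) ≠ 0 := sub_ne_zero.mpr ht.symm
  have h := sum_chi_sub hF h1
  have h2 : ∑ x : F, quadraticChar F (1 - x) * quadraticChar F (t - x) =
      quadraticChar F (-1) * ∑ x : F, quadraticChar F x * quadraticChar F ((1 - t) - x) := by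
    rw [Finset.mul_sum]
    refine Fintype.sum_equiv (Equiv.subLeft (1 : F)) _ _ ?_
    intro x
    simp only [Equiv.subLeft_apply]
    have e : t - x = -1 * (1 - t - (1 - x)) := by ring
    rw [e, map_mul]
    ring
  rw [h2, h]
  have h3 := quadraticChar_sq_one (F := F) (a := -1) (by simp)
  linear_combination -h3

theorem factor_aux {e a : ℤ} (he : e = 1 ∨ e = -1) (ha : a = 0 ∨ a = 1 ∨ a = -1) :
    0 ≤ 1 + e * a ∧ 1 + e * a ≤ 2 ∧ (a ≠ 0 → (1 + e * a = 0 ∧ a ≠ e) ∨ (1 + e * a = 2 ∧ a = e)) ∧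
      (a = 0 → 1 + e * a = 1) := by
  rcases he with rfl | rfl <;> rcases ha with rfl | rfl | rfl <;> simp

/-- The number of points with a prescribed pattern. -/
theorem card_pattern (hF : ringChar F ≠ 2) {t : F} (ht0 : t ≠ 0) (ht1 : t ≠ 1)
    (e₁ e₂ e₃ : ℤ) (h₁ : e₁ = 1 ∨ e₁ = -1) (h₂ : e₂ = 1 ∨ e₂ = -1) (h₃ : e₃ = 1 ∨ e₃ = -1)
    (hS : 0 ≤ e₁ * e₂ * e₃ * ∑ x : F, quadraticChar F x * quadraticChar F (1 - x) *
      quadraticChar F (t - x)) :
    (Fintype.card F : ℤ) - 15 ≤ 8 * ((univ.filter (fun x : F => quadraticChar F x = e₁ ∧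
      quadraticChar F (1 - x) = e₂ ∧ quadraticChar F (t - x) = e₃)).card : ℤ) := by
  classical
  set χ := quadraticChar F with hχ
  have hsum : ∑ x : F, (1 + e₁ * χ x) * (1 + e₂ * χ (1 - x)) * (1 + e₃ * χ (t - x)) =
      (Fintype.card F : ℤ) + e₁ * e₂ * (-χ (-1)) + e₁ * e₃ * (-χ (-1)) + e₂ * e₃ * (-1) +
      e₁ * e₂ * e₃ * ∑ x : F, χ x * χ (1 - x) * χ (t - x) := by
    have z1 : ∑ x : F, χ x = 0 := quadraticChar_sum_zero hF
    have z2 : ∑ x : F, χ (1 - x) = 0 := by
      rw [← z1]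
      exact Fintype.sum_equiv (Equiv.subLeft (1 : F)) _ _ (fun x => rfl)
    have z3 : ∑ x : F, χ (t - x) = 0 := by
      rw [← z1]
      exact Fintype.sum_equiv (Equiv.subLeft t) _ _ (fun x => rfl)
    have s1 : ∑ x : F, χ x * χ (1 - x) = -χ (-1) := sum_chi_one_sub hF
    have s2 : ∑ x : F, χ x * χ (t - x) = -χ (-1) := sum_chi_sub hF ht0
    have s3 : ∑ x : F, χ (1 - x) * χ (t - x) = -1 := sum_chi_sub_sub hF ht1
    have : ∀ x : F, (1 + e₁ * χ x) * (1 + e₂ * χ (1 - x)) * (1 + e₃ * χ (t - x)) =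
        1 + e₁ * χ x + e₂ * χ (1 - x) + e₃ * χ (t - x) + e₁ * e₂ * (χ x * χ (1 - x)) +
        e₁ * e₃ * (χ x * χ (t - x)) + e₂ * e₃ * (χ (1 - x) * χ (t - x)) +
        e₁ * e₂ * e₃ * (χ x * χ (1 - x) * χ (t - x)) := by
      intro x; ring
    simp only [this, Finset.sum_add_distrib, ← Finset.mul_sum, z1, z2, z3, s1, s2, s3]
    simp
  have hpt : ∀ x : F, (1 + e₁ * χ x) * (1 + e₂ * χ (1 - x)) * (1 + e₃ * χ (t - x)) ≤
      8 * (if χ x = e₁ ∧ χ (1 - x) = e₂ ∧ χ (t - x) = e₃ then 1 else 0) +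
      4 * (if x = 0 then 1 else 0) + 4 * (if x = 1 then 1 else 0) +
      4 * (if x = t then 1 else 0) := by
    intro x
    obtain ⟨a0, a2, a3, a4⟩ := factor_aux h₁ (quadraticChar_isQuadratic F x)
    obtain ⟨b0, b2, b3, b4⟩ := factor_aux h₂ (quadraticChar_isQuadratic F (1 - x))
    obtain ⟨c0, c2, c3, c4⟩ := factor_aux h₃ (quadraticChar_isQuadratic F (t - x))
    rw [← hχ] at a0 a2 a3 a4 b0 b2 b3 b4 c0 c2 c3 c4
    have hP : (0 : ℤ) ≤ 8 * (if χ x = e₁ ∧ χ (1 - x) = e₂ ∧ χ (t - x) = e₃ then 1 else 0) := by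
      split_ifs <;> norm_num
    have i0 : (0 : ℤ) ≤ 4 * (if x = 0 then 1 else 0) := by split_ifs <;> norm_num
    have i1 : (0 : ℤ) ≤ 4 * (if x = 1 then 1 else 0) := by split_ifs <;> norm_num
    have it : (0 : ℤ) ≤ 4 * (if x = t then 1 else 0) := by split_ifs <;> norm_num
    by_cases hx0 : x = 0
    · have : χ x = 0 := by rw [hx0]; simp [hχ]
      have hf := a4 this
      rw [hf]
      have : (4 : ℤ) * (if x = 0 then 1 else 0) = 4 := by simp [hx0]
      nlinarith
    by_cases hx1 : x = 1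
    · have : χ (1 - x) = 0 := by rw [hx1]; simp [hχ]
      have hf := b4 this
      rw [hf]
      have : (4 : ℤ) * (if x = 1 then 1 else 0) = 4 := by simp [hx1]
      nlinarith
    by_cases hxt : x = t
    · have : χ (t - x) = 0 := by rw [hxt]; simp [hχ]
      have hf := c4 this
      rw [hf]
      have : (4 : ℤ) * (if x = t then 1 else 0) = 4 := by simp [hxt]
      nlinarith
    have n0 : χ x ≠ 0 := fun h => hx0 (quadraticChar_eq_zero_iff.mp h)
    have n1 : χ (1 - x) ≠ 0 := fun h => hx1 (sub_eq_zero.mp (quadraticChar_eq_zero_iff.mp h)).symm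
    have nt : χ (t - x) ≠ 0 := fun h => hxt (sub_eq_zero.mp (quadraticChar_eq_zero_iff.mp h)).symm
    rcases a3 n0 with ⟨h, _⟩ | ⟨h, ha⟩
    · rw [h]; linarith
    rcases b3 n1 with ⟨h', _⟩ | ⟨h', hb⟩
    · rw [h']; linarith
    rcases c3 nt with ⟨h'', _⟩ | ⟨h'', hc⟩
    · rw [h'']; linarith
    rw [h, h', h'', if_pos ⟨ha, hb, hc⟩]
    linarith
  have hle := Finset.sum_le_sum fun x (_ : x ∈ (univ : Finset F)) => hpt x
  rw [hsum] at hle
  simp only [Finset.sum_add_distrib, ← Finset.mul_sum] at hle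
  rw [Finset.sum_ite_eq' , Finset.sum_ite_eq', Finset.sum_ite_eq'] at hle
  simp only [mem_univ, if_true] at hle
  rw [Finset.card_filter]
  push_cast
  have hm1 : χ (-1) = 1 ∨ χ (-1) = -1 := quadraticChar_dichotomy (by simp)
  have k12 : -1 ≤ e₁ * e₂ * (-χ (-1)) := by
    rcases h₁ with rfl | rfl <;> rcases h₂ with rfl | rfl <;> rcases hm1 with h | h <;>
      rw [h] <;> norm_num
  have k13 : -1 ≤ e₁ * e₃ * (-χ (-1)) := by
    rcases h₁ with rfl | rfl <;> rcases h₃ with rfl | rfl <;> rcases hm1 with h | h <;>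
      rw [h] <;> norm_num
  have k23 : -1 ≤ e₂ * e₃ * (-1) := by
    rcases h₂ with rfl | rfl <;> rcases h₃ with rfl | rfl <;> norm_num
  linarith

/-- `GH(q, 8)` exists for every odd prime power `q ≥ 25` (as the order of a field). -/
theorem hasGH_of_card_ge (hF : ringChar F ≠ 2) (hq : 25 ≤ Fintype.card F) :
    HasGH (Fintype.card F) 8 := by
  classical
  have ht0 : (-1 : F) ≠ 0 := by simp
  have ht1 : (-1 : F) ≠ 1 := Ring.neg_one_ne_one_of_char_ne_two hF
  obtain ⟨π, hπ, hπS⟩ : ∃ π : ℤ, (π = 1 ∨ π = -1) ∧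
      0 ≤ π * ∑ x : F, quadraticChar F x * quadraticChar F (1 - x) * quadraticChar F (-1 - x) := by
    rcases le_total 0 (∑ x : F, quadraticChar F x * quadraticChar F (1 - x) *
      quadraticChar F (-1 - x)) with h | h
    · exact ⟨1, Or.inl rfl, by linarith⟩
    · exact ⟨-1, Or.inr rfl, by linarith⟩
  let E1 : Fin 4 → ℤ := ![1, 1, -1, -1]
  let E2 : Fin 4 → ℤ := ![1, -1, 1, -1]
  let E3 : Fin 4 → ℤ := ![π, -π, -π, π]
  have hE1 : ∀ k, E1 k = 1 ∨ E1 k = -1 := by intro k; fin_cases k <;> simp [E1]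
  have hE2 : ∀ k, E2 k = 1 ∨ E2 k = -1 := by intro k; fin_cases k <;> simp [E2]
  have hE3 : ∀ k, E3 k = 1 ∨ E3 k = -1 := by
    intro k; rcases hπ with rfl | rfl <;> fin_cases k <;> simp [E3]
  have hE : ∀ k, E1 k * E2 k * E3 k = π := by
    intro k; fin_cases k <;> simp [E1, E2, E3]
  have hcard : ∀ k, 1 < (univ.filter (fun x : F => quadraticChar F x = E1 k ∧
      quadraticChar F (1 - x) = E2 k ∧ quadraticChar F (-1 - x) = E3 k)).card := by
    intro k
    have h := card_pattern hF ht0 ht1 (E1 k) (E2 k) (E3 k) (hE1 k) (hE2 k) (hE3 k)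
      (by rw [hE k]; exact hπS)
    have hq' : (25 : ℤ) ≤ Fintype.card F := by exact_mod_cast hq
    omega
  have hex : ∀ k, ∃ a b : F, a ≠ b ∧ (quadraticChar F a = E1 k ∧
      quadraticChar F (1 - a) = E2 k ∧ quadraticChar F (-1 - a) = E3 k) ∧
      (quadraticChar F b = E1 k ∧
      quadraticChar F (1 - b) = E2 k ∧ quadraticChar F (-1 - b) = E3 k) := by
    intro k
    obtain ⟨a, ha, b, hb, hab⟩ := Finset.one_lt_card.mp (hcard k)
    simp only [mem_filter, mem_univ, true_and] at ha hb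
    exact ⟨a, b, hab, ha, hb⟩
  choose a b hab ha hb using hex
  let r : Fin 4 × Bool → F := fun i => if i.2 = true then b i.1 else a i.1
  have hr : ∀ i, quadraticChar F (r i) = E1 i.1 ∧ quadraticChar F (1 - r i) = E2 i.1 ∧
      quadraticChar F (-1 - r i) = E3 i.1 := by
    rintro ⟨k, s⟩
    cases s
    · simpa [r] using ha k
    · simpa [r] using hb k
  have hne : ∀ e : ℤ, (e = 1 ∨ e = -1) → e ≠ 0 := by
    rintro e (rfl | rfl) <;> norm_num
  refine hasGH_of_points hF (-1) r ?_ ?_ ?_ ?_ ?_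
  · rintro ⟨k, s⟩ ⟨k', s'⟩ h
    have e1 : E1 k = E1 k' := by rw [← (hr (k, s)).1, ← (hr (k', s')).1, h]
    have e2 : E2 k = E2 k' := by rw [← (hr (k, s)).2.1, ← (hr (k', s')).2.1, h]
    have hk : k = k' := by
      revert e1 e2
      fin_cases k <;> fin_cases k' <;> simp [E1, E2]
    subst hk
    cases s <;> cases s'
    · rfl
    · exact absurd (by simpa [r] using h) (hab k)
    · exact absurd (by simpa [r] using h.symm) (hab k)
    · rfl
  · intro i h
    have := (hr i).1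
    rw [h] at this
    exact hne _ (hE1 i.1) (by rw [← this]; simp)
  · intro i h
    have := (hr i).2.1
    rw [h] at this
    exact hne _ (hE2 i.1) (by rw [← this]; simp)
  · intro i h
    have := (hr i).2.2
    rw [h] at this
    exact hne _ (hE3 i.1) (by rw [← this]; simp)
  · rintro ⟨k, s⟩ ⟨k', s'⟩ hk
    rw [(hr (k, s)).1, (hr (k, s)).2.1, (hr (k, s)).2.2, (hr (k', s')).1, (hr (k', s')).2.1,
      (hr (k', s')).2.2]
    simp only at hk
    revert hk
    rcases hπ with rfl | rfl <;> fin_cases k <;> fin_cases k' <;> simp [E1, E2, E3]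

end Points

end Pool.Agent.GH8
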