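import Pool.Agent.Lib_helper14.GH8.Basic

set_option autoImplicit false

/-!
# Difference matrices from quadratic forms

Blocks `a x² + b x y + c y²` over a finite field of odd characteristic.
-/

namespace Pool.Agent.GH8

open Finset

section Quad

variable {F : Type} [Field F] [Fintype F] [DecidableEq F]

/-- The number of solutions `y` of `C y² + B y + A = v`. -/
theorem card_quad (hF : ringChar F ≠ 2) {C : F} (hC : C ≠ 0) (B A v : F) :
    (((univ.filter (fun y : F => C * y ^ 2 + B * y + A = v)).card : ℕ) : ℤ) =
      quadraticChar F (B ^ 2 - 4 * C * (A - v)) + 1 := by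
  have h2 : (2 : F) ≠ 0 := Ring.two_ne_zero hF
  rw [← quadraticChar_card_sqrts hF]
  congr 1
  refine Finset.card_bij (fun y _ => 2 * C * y + B) ?_ ?_ ?_
  · intro y hy
    simp only [mem_filter, mem_univ, true_and] at hy
    simp only [Set.mem_toFinset, Set.mem_ofPred_eq]
    rw [← hy]
    ring
  · intro y _ z _ h
    have h' : 2 * C * y = 2 * C * z := by simpa using h
    exact mul_left_cancel₀ (mul_ne_zero h2 hC) h'
  · intro z hz
    simp only [Set.mem_toFinset, Set.mem_ofPred_eq] at hz
    refine ⟨(z - B) / (2 * C), ?_, ?_⟩
    · simp only [mem_filter, mem_univ, true_and]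
      have h4 : (4 : F) * C ≠ 0 := by
        have : (4 : F) = 2 * 2 := by norm_num
        rw [this]
        exact mul_ne_zero (mul_ne_zero h2 h2) hC
      have : 4 * C * (C * ((z - B) / (2 * C)) ^ 2 + B * ((z - B) / (2 * C)) + A - v) = 0 := by
        field_simp
        linear_combination 4 * hz
      have h' := (mul_eq_zero.mp this).resolve_left h4
      linear_combination h'
    · field_simp
      ring

/-- The matrix of the quadratic forms `a x² + b x y + c y²`. -/
def quadMat {I J : Type} (a b c : I → J → F) : I × F → J × F → F :=
  fun p q => a p.1 q.1 * p.2 ^ 2 + b p.1 q.1 * p.2 * q.2 + c p.1 q.1 * q.2 ^ 2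

theorem isDM_quadMat {I J : Type} [Fintype J] (hF : ringChar F ≠ 2)
    (a b c : I → J → F) (hb : ∀ i j, b i j ≠ 0)
    (hc : ∀ i i' j, i ≠ i' → c i j ≠ c i' j)
    (hsum : ∀ i i', i ≠ i' → ∀ x x' v : F,
      ∑ j, quadraticChar F ((b i j * x - b i' j * x') ^ 2 -
        4 * (c i j - c i' j) * (a i j * x ^ 2 - a i' j * x' ^ 2 - v)) = 0) :
    IsDM (Fintype.card J) (quadMat a b c) := by
  classical
  rintro ⟨i, x⟩ ⟨i', x'⟩ hne g
  have key : (((univ.filter (fun k : J × F => quadMat a b c (i, x) k - quadMat a b c (i', x') k = g)).card : ℕ) : ℤ)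
      = ∑ j : J, (((univ.filter (fun y : F => quadMat a b c (i, x) (j, y) -
          quadMat a b c (i', x') (j, y) = g)).card : ℕ) : ℤ) := by
    rw [Finset.card_filter, Fintype.sum_prod_type]
    push_cast
    refine Finset.sum_congr rfl fun j _ => ?_
    rw [Finset.card_filter]
    push_cast
    rfl
  have goal : (((univ.filter (fun k : J × F => quadMat a b c (i, x) k - quadMat a b c (i', x') k = g)).card : ℕ) : ℤ)
      = (Fintype.card J : ℤ) := by
    rw [key]
    by_cases hii : i = i'
    · subst hii
      have hx : x ≠ x' := fun h => hne (by rw [h])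
      have h1 : ∀ j : J, (((univ.filter (fun y : F => quadMat a b c (i, x) (j, y) -
          quadMat a b c (i, x') (j, y) = g)).card : ℕ) : ℤ) = 1 := by
        intro j
        have hbx : b i j * (x - x') ≠ 0 := mul_ne_zero (hb i j) (sub_ne_zero.mpr hx)
        have : (univ.filter (fun y : F => quadMat a b c (i, x) (j, y) -
          quadMat a b c (i, x') (j, y) = g)) = {(g - a i j * (x ^ 2 - x' ^ 2)) / (b i j * (x - x'))} := by
          ext y
          simp only [mem_filter, mem_univ, true_and, mem_singleton]
          rw [eq_div_iff hbx]
          dsimp only [quadMat]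
          constructor
          · intro h
            linear_combination h
          · intro h
            linear_combination h
        rw [this]
        simp
      rw [Finset.sum_congr rfl fun j _ => h1 j]
      simp
    · have h1 : ∀ j : J, (((univ.filter (fun y : F => quadMat a b c (i, x) (j, y) -
          quadMat a b c (i', x') (j, y) = g)).card : ℕ) : ℤ) =
          quadraticChar F ((b i j * x - b i' j * x') ^ 2 -
        4 * (c i j - c i' j) * (a i j * x ^ 2 - a i' j * x' ^ 2 - g)) + 1 := by
        intro j
        have hC : c i j - c i' j ≠ 0 := sub_ne_zero.mpr (hc i i' j hii)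
        rw [← card_quad hF hC (b i j * x - b i' j * x') (a i j * x ^ 2 - a i' j * x' ^ 2) g]
        congr 2
        ext y
        simp only [mem_filter, mem_univ, true_and]
        dsimp only [quadMat]
        constructor
        · intro h
          linear_combination h
        · intro h
          linear_combination h
      rw [Finset.sum_congr rfl fun j _ => h1 j, Finset.sum_add_distrib, hsum i i' hii]
      simp
  exact_mod_cast goal

end Quad

end Pool.Agent.GH8
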