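import Pool.Agent.Lib_helper14.GH8.Basic

set_option autoImplicit false

/-!
# An explicit `GH(3, 8)`
-/

namespace Pool.Agent.GH8

open Finset

/-- The rows of a `GH(3, 8)`, as base-3 numbers. -/
def rows3 : Fin 24 → ℕ :=
  ![105480543350, 105470175390, 37456357790, 37466722590, 35758622406, 35741718694,
    107199278130, 107216176690, 195789321254, 195806434002, 84918079046, 84900969618,
    84204833862, 84215727730, 196481573490, 196470684838, 127078230640, 127112660144,
    14158066864, 14123632112, 251395216240, 251412014960, 31012800880, 30996007280]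

/-- An explicit `24 × 24` generalized Hadamard matrix over `ZMod 3`. -/
def mat3 (i k : Fin 24) : ZMod 3 := ((rows3 i / 3 ^ (k : ℕ) % 3 : ℕ) : ZMod 3)

theorem isDM_mat3 : IsDM 8 mat3 := by
  unfold IsDM
  decide +kernel

theorem hasGH_3 : HasGH 3 8 :=
  hasGH_of_isDM (A := ZMod 3) (by simp) (by simp) (by simp) mat3 isDM_mat3

end Pool.Agent.GH8
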