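import Pool.Agent.Lib_helper14.GH8.Frames

set_option autoImplicit false

/-!
# The two-class construction of `GH(q, 8)`
-/

namespace Pool.Agent.GH8

open Finset

section TwoClass

variable {F : Type} [Field F] [Fintype F] [DecidableEq F]

/-- The row vectors in the two classes of columns. -/
def tcU (R : Fin 4 × Bool → F × F) (d : F) : Fin 4 × Bool → Bool × Fin 4 → F × F
  | i, (false, _) => R i
  | (k, false), (true, _) => (d * (R (k, false)).1, (R (k, false)).2)
  | (k, true), (true, _) => ((R (k, true)).1, d⁻¹ * (R (k, true)).2)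

/-- The dual vectors. -/
def tcT (R : Fin 4 × Bool → F × F) (d : F) : Fin 4 × Bool → Bool × Fin 4 → F × F
  | (k, false), j =>
      ((br (R (k, false)) (R (k, true)))⁻¹ * (tcU R d (k, true) j).1,
       (br (R (k, false)) (R (k, true)))⁻¹ * (tcU R d (k, true) j).2)
  | (k, true), j =>
      (-(br (R (k, false)) (R (k, true)))⁻¹ * (tcU R d (k, false) j).1,
       -(br (R (k, false)) (R (k, true)))⁻¹ * (tcU R d (k, false) j).2)

/-- The column vectors. -/
def tcV (V : Fin 4 → F × F) (d : F) : Bool × Fin 4 → F × F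
  | (false, j) => V j
  | (true, j) => (d * (V j).1, (V j).2)

/-- The dual column vectors. -/
def tcW (W : Fin 4 → F × F) (d : F) : Bool × Fin 4 → F × F
  | (false, j) => W j
  | (true, j) => ((W j).1, d⁻¹ * (W j).2)

omit [Fintype F] [DecidableEq F] in
theorem tc_brUV (R : Fin 4 × Bool → F × F) (V : Fin 4 → F × F) (d : F) (hd : d ≠ 0)
    (k : Fin 4) (s c : Bool) (j : Fin 4) :
    br (tcU R d (k, s) (c, j)) (tcV V d (c, j)) =
      (if c = true ∧ s = false then d else 1) * br (R (k, s)) (V j) := by
  cases s <;> cases c <;> simp [tcU, tcV, br] <;> field_simp <;> ring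

omit [Fintype F] [DecidableEq F] in
theorem tc_brUU_same (R : Fin 4 × Bool → F × F) (d : F) (hd : d ≠ 0)
    (k k' : Fin 4) (s s' c : Bool) (j : Fin 4) :
    br (tcU R d (k, s) (c, j)) (tcU R d (k', s') (c, j)) =
      (if c = true then (if s = false ∧ s' = false then d else
        if s = true ∧ s' = true then d⁻¹ else 1) else 1) * br (R (k, s)) (R (k', s')) := by
  cases s <;> cases s' <;> cases c <;> simp [tcU, br] <;> field_simp <;> ring

theorem isDM_two_class (hF : ringChar F ≠ 2) (R : Fin 4 × Bool → F × F) (V W : Fin 4 → F × F)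
    (d : F) (hd : quadraticChar F d = -1) (hVW : ∀ j, br (V j) (W j) = 1)
    (hRV : ∀ i j, br (R i) (V j) ≠ 0) (hRR : ∀ i i', i ≠ i' → br (R i) (R i') ≠ 0)
    (horth : ∀ i i', i.1 ≠ i'.1 → ∑ j, quadraticChar F (br (R i) (V j)) *
      quadraticChar F (br (R i') (V j)) = 0) :
    ∃ D : (Fin 4 × Bool) × F → (Bool × Fin 4) × F → F, IsDM 8 D := by
  have hd0 : d ≠ 0 := by
    rintro rfl
    simp at hd
  have hg : ∀ k, br (R (k, false)) (R (k, true)) ≠ 0 := fun k => hRR _ _ (by simp)
  refine ⟨_, isDM_frames hF (tcU R d) (tcT R d) (tcV V d) (tcW W d) ?_ ?_ ?_ ?_ ?_⟩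
  · rintro ⟨k, s⟩ ⟨c, j⟩
    have h := hg k
    have e := tc_brUU_same R d hd0 k k false true c j
    cases s
    · have : br (tcU R d (k, false) (c, j)) (tcT R d (k, false) (c, j)) =
          (br (R (k, false)) (R (k, true)))⁻¹ *
            br (tcU R d (k, false) (c, j)) (tcU R d (k, true) (c, j)) := by
        simp only [tcT, br]; ring
      rw [this, e]
      simp [h]
    · have : br (tcU R d (k, true) (c, j)) (tcT R d (k, true) (c, j)) =
          (br (R (k, false)) (R (k, true)))⁻¹ *
            br (tcU R d (k, false) (c, j)) (tcU R d (k, true) (c, j)) := by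
        simp only [tcT, br]; ring
      rw [this, e]
      simp [h]
  · rintro ⟨c, j⟩
    cases c
    · simpa [tcV, tcW] using hVW j
    · have := hVW j
      simp only [tcV, tcW, br] at this ⊢
      field_simp
      linear_combination this
  · rintro ⟨k, s⟩ ⟨c, j⟩
    rw [tc_brUV R V d hd0]
    refine mul_ne_zero ?_ (hRV _ _)
    split_ifs
    · exact hd0
    · exact one_ne_zero
  · rintro ⟨k, s⟩ ⟨k', s'⟩ ⟨c, j⟩ hne
    rw [tc_brUU_same R d hd0]
    refine mul_ne_zero ?_ (hRR _ _ hne)
    split_ifs
    · exact hd0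
    · exact inv_ne_zero hd0
    · exact one_ne_zero
    · exact one_ne_zero
  · rintro ⟨k, s⟩ ⟨k', s'⟩ hne x x' z
    rw [Fintype.sum_prod_type]
    by_cases hk : k = k'
    · subst hk
      have hs : s ≠ s' := fun h => hne (by rw [h])
      have hs' : s' = !s := by cases s <;> cases s' <;> simp_all
      subst hs'
      -- the two classes cancel
      have key : ∀ c j, quadraticChar F (br (tcU R d (k, s) (c, j)) (tcV V d (c, j))) *
          quadraticChar F (br (tcU R d (k, !s) (c, j)) (tcV V d (c, j))) *
          quadraticChar F (4 * br (tcU R d (k, s) (c, j)) (tcU R d (k, !s) (c, j)) * z -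
          (br (tcT R d (k, s) (c, j)) (tcU R d (k, !s) (c, j)) * x ^ 2 -
            br (tcU R d (k, s) (c, j)) (tcT R d (k, !s) (c, j)) * x' ^ 2 + 2 * x * x')) =
          (if c = true then -1 else 1) * (quadraticChar F (br (R (k, s)) (V j)) *
          quadraticChar F (br (R (k, !s)) (V j)) *
          quadraticChar F (4 * br (R (k, s)) (R (k, !s)) * z - 2 * x * x')) := by
        intro c j
        rw [tc_brUV R V d hd0, tc_brUV R V d hd0, tc_brUU_same R d hd0]
        have e1 : br (tcT R d (k, s) (c, j)) (tcU R d (k, !s) (c, j)) = 0 := by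
          cases s <;> simp only [tcT, br, Bool.not_false, Bool.not_true] <;> ring
        have e2 : br (tcU R d (k, s) (c, j)) (tcT R d (k, !s) (c, j)) = 0 := by
          cases s <;> simp only [tcT, br, Bool.not_false, Bool.not_true] <;> ring
        rw [e1, e2, map_mul, map_mul]
        cases s <;> cases c <;> simp [hd]
      rw [Finset.sum_congr rfl fun c _ => Finset.sum_congr rfl fun j _ => key c j]
      rw [Fintype.sum_bool]
      simp only [if_true, ← Finset.mul_sum]
      simp
    · -- each class sums to zero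
      refine Finset.sum_eq_zero fun c _ => ?_
      have hT : ∀ (k₁ : Fin 4) (s₁ : Bool) (j₁ j₂ : Fin 4),
          tcU R d (k₁, s₁) (c, j₁) = tcU R d (k₁, s₁) (c, j₂) := by
        intro k₁ s₁ j₁ j₂
        cases s₁ <;> cases c <;> rfl
      have hT' : ∀ (k₁ : Fin 4) (s₁ : Bool) (j₁ j₂ : Fin 4),
          tcT R d (k₁, s₁) (c, j₁) = tcT R d (k₁, s₁) (c, j₂) := by
        intro k₁ s₁ j₁ j₂
        cases s₁ <;> simp only [tcT, hT _ _ j₁ j₂]
      have key : ∀ j, quadraticChar F (br (tcU R d (k, s) (c, j)) (tcV V d (c, j))) *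
          quadraticChar F (br (tcU R d (k', s') (c, j)) (tcV V d (c, j))) *
          quadraticChar F (4 * br (tcU R d (k, s) (c, j)) (tcU R d (k', s') (c, j)) * z -
          (br (tcT R d (k, s) (c, j)) (tcU R d (k', s') (c, j)) * x ^ 2 -
            br (tcU R d (k, s) (c, j)) (tcT R d (k', s') (c, j)) * x' ^ 2 + 2 * x * x')) =
          (quadraticChar F (br (R (k, s)) (V j)) * quadraticChar F (br (R (k', s')) (V j))) *
          (quadraticChar F (if c = true ∧ s = false then d else 1) *
           quadraticChar F (if c = true ∧ s' = false then d else 1) *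
          quadraticChar F (4 * br (tcU R d (k, s) (c, 0)) (tcU R d (k', s') (c, 0)) * z -
          (br (tcT R d (k, s) (c, 0)) (tcU R d (k', s') (c, 0)) * x ^ 2 -
            br (tcU R d (k, s) (c, 0)) (tcT R d (k', s') (c, 0)) * x' ^ 2 + 2 * x * x'))) := by
        intro j
        rw [tc_brUV R V d hd0, tc_brUV R V d hd0, hT k s j 0, hT k' s' j 0, hT' k s j 0,
          hT' k' s' j 0, map_mul, map_mul]
        ring
      rw [Finset.sum_congr rfl fun j _ => key j, ← Finset.sum_mul,
        horth (k, s) (k', s') hk, zero_mul]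

end TwoClass

end Pool.Agent.GH8
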